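import Mathlib

namespace Pool.Agent.Results.MP_33f3d1_co.FivePoints

/-- `Y` is a relating retract of the ordered set `X`: there is an order preserving map `r : X → X`
with values in `Y`, fixing every point of `Y`, such that `x` and `r x` are comparable
for every `x` outside `Y`. -/
def IsRelatingRetract {X : Type} [PartialOrder X] (Y : Set X) : Prop :=
  ∃ r : X → X, (∀ x x', x ≤ x' → r x ≤ r x') ∧ (∀ x, r x ∈ Y) ∧ (∀ y ∈ Y, r y = y) ∧
    ∀ x, x ∉ Y → (x ≤ r x ∨ r x ≤ x)

/-- `Y` is a minimal relating retract of `X`: it is a relating retract and no proper nonempty
subset of `Y` is a relating retract of `X`. -/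
def IsMinimalRelatingRetract {X : Type} [PartialOrder X] (Y : Set X) : Prop :=
  IsRelatingRetract Y ∧ ∀ Z : Set X, Z ⊂ Y → Z.Nonempty → ¬ IsRelatingRetract Z

/-- Five points. -/
inductive Pt : Type
  | a | b | c | d | top
  deriving DecidableEq

open Pt

instance : Fintype Pt := ⟨{a, b, c, d, top}, by intro x; cases x <;> decide⟩

/-- The order `a < c < top`, `a < d < top`, `b < d < top`. -/
def leTable (i j : Pt) : Prop :=
  i = j ∨ j = top ∨ (i = a ∧ j = c) ∨ (i = a ∧ j = d) ∨ (i = b ∧ j = d)

instance : DecidableRel leTable := fun i j => by unfold leTable; infer_instance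

/-- The five-element ordered set. -/
instance : PartialOrder Pt where
  le := leTable
  le_refl := by decide
  le_trans := by decide
  le_antisymm := by decide

/-- The retraction onto `{a, d}`. -/
def ret : Pt → Pt
  | a => a
  | b => d
  | c => a
  | d => d
  | top => d

/-- There is a finite ordered set with two minimal relating retracts that are not
order-isomorphic. -/
theorem result : ∃ (X : Type) (_ : Finite X) (_ : PartialOrder X) (Y Z : Set X),
    IsMinimalRelatingRetract Y ∧ IsMinimalRelatingRetract Z ∧ ¬ Nonempty (Y ≃o Z) := by
  refine ⟨Pt, inferInstance, inferInstance, {top}, {a, d}, ?_, ?_, ?_⟩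
  · refine ⟨⟨fun _ => top, ?_, ?_, ?_, ?_⟩, ?_⟩
    · intro x x' _; exact le_refl _
    · intro x; exact Set.mem_singleton _
    · intro y hy; exact (Set.mem_singleton_iff.1 hy).symm
    · intro x _; left; show leTable x top; right; left; rfl
    · intro W hW hne _
      exact hne.ne_empty (Set.ssubset_singleton_iff.1 hW)
  · refine ⟨⟨ret, ?_, ?_, ?_, ?_⟩, ?_⟩
    · have : ∀ x x' : Pt, leTable x x' → leTable (ret x) (ret x') := by decide
      exact this
    · have : ∀ x : Pt, ret x = a ∨ ret x = d := by decide
      exact this
    · intro y hy
      rcases hy with h | h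
      · subst h; rfl
      · rw [Set.mem_singleton_iff] at h; subst h; rfl
    · have : ∀ x : Pt, leTable x (ret x) ∨ leTable (ret x) x := by decide
      intro x _
      exact this x
    · intro W hW hne hr
      obtain ⟨r, hmono, hmem, hfix, hcomp⟩ := hr
      obtain ⟨hsub, hnsub⟩ := hW
      by_cases h0 : a ∈ W
      · by_cases h3 : d ∈ W
        · apply hnsub
          intro z hz
          rcases hz with h | h
          · subst h; exact h0
          · rw [Set.mem_singleton_iff] at h; subst h; exact h3
        · -- every value of `r` is `a`, but `b` and `a` are incomparable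
          have hval : ∀ x, r x = a := by
            intro x
            rcases hsub (hmem x) with h | h
            · exact h
            · rw [Set.mem_singleton_iff] at h
              exact absurd (h ▸ hmem x) h3
          have h1 : b ∉ W := by
            intro h
            rcases hsub h with h | h
            · exact absurd h (by decide)
            · exact absurd (Set.mem_singleton_iff.1 h) (by decide)
          have := hcomp b h1
          rw [hval b] at this
          have hno : ¬ (leTable b a ∨ leTable a b) := by decide
          exact hno this
      · have hval : ∀ x, r x = d := by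
          intro x
          rcases hsub (hmem x) with h | h
          · exact absurd (h ▸ hmem x) h0
          · exact Set.mem_singleton_iff.1 h
        have h2 : c ∉ W := by
          intro h
          rcases hsub h with h | h
          · exact absurd h (by decide)
          · exact absurd (Set.mem_singleton_iff.1 h) (by decide)
        have := hcomp c h2
        rw [hval c] at this
        have hno : ¬ (leTable c d ∨ leTable d c) := by decide
        exact hno this
  · rintro ⟨e⟩
    have h0 : a ∈ ({a, d} : Set Pt) := Or.inl rfl
    have h3 : d ∈ ({a, d} : Set Pt) := Or.inr rfl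
    have heq : e.symm ⟨a, h0⟩ = e.symm ⟨d, h3⟩ := by
      apply Subtype.ext
      rw [Set.mem_singleton_iff.1 (e.symm ⟨a, h0⟩).2, Set.mem_singleton_iff.1 (e.symm ⟨d, h3⟩).2]
    have hv : a = d := congrArg Subtype.val (e.symm.injective heq)
    exact absurd hv (by decide)

end Pool.Agent.Results.MP_33f3d1_co.FivePoints
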